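import Mathlib
import Pool.Agent.H443R3.PCA
import Pool.Agent.H443R3.Erg

set_option autoImplicit false

open MeasureTheory ProbabilityTheory Filter Topology
open scoped ENNReal Pointwise

/-!
# Coalescing random walks as a probabilistic cellular automaton

The alphabet is `Bool × Bool`: the first entry says whether the site carries a particle, the second
one is a fair coin.  In one step a particle whose coin is `false` stays, a particle whose coin is
`true` moves by `e`; two particles that meet merge; then all coins are tossed afresh.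
-/

namespace Pool.Agent.TH967.PCA

open Pool.Agent.H443R3

variable {d : ℕ}

/-- Does a particle arrive at `i`? -/
def nxt (e : Site d) (x : Config d (Bool × Bool)) (i : Site d) : Bool :=
  ((x i).1 && !(x i).2) || ((x (i - e)).1 && (x (i - e)).2)

/-- The coalescing random walk in direction `e`, as a probabilistic cellular automaton with
neighbourhood `{0, -e}`: the new symbol is `(arrival, fair coin)`. -/
noncomputable def coal (e : Site d) : PCA d (Bool × Bool) where
  nbhd := {0, -e}
  rule := fun u => (PMF.uniformOfFintype Bool).map (fun c : Bool =>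
    (((u ⟨0, by simp⟩).1 && !(u ⟨0, by simp⟩).2) ||
      ((u ⟨-e, by simp⟩).1 && (u ⟨-e, by simp⟩).2), c))

theorem coal_rule (e : Site d) (x : Config d (Bool × Bool)) (i : Site d) :
    (coal e).rule ((coal e).pattern x i) =
      (PMF.uniformOfFintype Bool).map (fun c : Bool => (nxt e x i, c)) := by
  unfold coal nxt PCA.pattern
  simp only [add_zero, ← sub_eq_add_neg]

/-- Integration of a function of one symbol against one step. -/
theorem op_single (e : Site d) (φ : Bool × Bool → ℝ≥0∞) (i : Site d)
    (x : Config d (Bool × Bool)) :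
    (coal e).op (fun y => φ (y i)) x = (φ (nxt e x i, true) + φ (nxt e x i, false)) / 2 := by
  unfold PCA.op PCA.step
  have h1 : (Measure.infinitePi (fun i : Site d => ((coal e).rule ((coal e).pattern x i)).toMeasure)).map
      (fun y => y i) = ((coal e).rule ((coal e).pattern x i)).toMeasure :=
    Measure.infinitePi_map_eval _ i
  have hφ : Measurable φ := Measurable.of_discrete
  rw [← lintegral_map hφ (measurable_pi_apply i), h1, coal_rule]
  rw [← PMF.toMeasure_map (fun c : Bool => (nxt e x i, c)) _ Measurable.of_discrete]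
  rw [lintegral_map hφ Measurable.of_discrete]
  rw [lintegral_fintype]
  simp only [Fintype.univ_bool, Finset.mem_singleton, Bool.true_eq_false, not_false_eq_true,
    Finset.sum_insert, Finset.sum_singleton]
  rw [PMF.toMeasure_apply_singleton _ _ (MeasurableSet.singleton _),
    PMF.toMeasure_apply_singleton _ _ (MeasurableSet.singleton _)]
  simp only [PMF.uniformOfFintype_apply, Fintype.card_bool]
  rw [← add_mul]
  rfl

/-- No particle at `j` is about to move. -/
def fA (s : Bool × Bool) : ℝ≥0∞ := if s.1 && s.2 then 0 else 1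

/-- No particle at `j` is about to stay. -/
def fB (s : Bool × Bool) : ℝ≥0∞ := if s.1 && !s.2 then 0 else 1

/-- No particle at `j`. -/
def fQ (s : Bool × Bool) : ℝ≥0∞ := if s.1 then 0 else 1

theorem fB_mul_fA (s : Bool × Bool) : fB s * fA s = fQ s := by
  obtain ⟨p, c⟩ := s
  cases p <;> cases c <;> simp [fA, fB, fQ]

/-- No particle arrives at `j`. -/
def N (e : Site d) (j : Site d) (x : Config d (Bool × Bool)) : ℝ≥0∞ :=
  if nxt e x j then 0 else 1

theorem N_eq (e : Site d) (j : Site d) (x : Config d (Bool × Bool)) :
    N e j x = fB (x j) * fA (x (j - e)) := by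
  unfold N nxt fA fB
  cases (x j).1 <;> cases (x j).2 <;> cases (x (j - e)).1 <;> cases (x (j - e)).2 <;> simp

theorem N_le_one (e : Site d) (j : Site d) (x : Config d (Bool × Bool)) : N e j x ≤ 1 := by
  unfold N
  split_ifs <;> simp

theorem half_add_half_one_add (a : ℝ≥0∞) : (a + 1) / 2 = (1 + a) / 2 := by rw [add_comm]

theorem op_fA (e : Site d) (j : Site d) :
    (coal e).op (fun y => fA (y j)) = fun x => (1 + N e j x) / 2 := by
  funext x
  rw [op_single]
  unfold fA N
  cases nxt e x j <;> simp

theorem op_fB (e : Site d) (j : Site d) :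
    (coal e).op (fun y => fB (y j)) = fun x => (1 + N e j x) / 2 := by
  funext x
  rw [op_single]
  unfold fB N
  cases nxt e x j <;> simp

theorem op_fQ (e : Site d) (j : Site d) :
    (coal e).op (fun y => fQ (y j)) = fun x => N e j x := by
  funext x
  rw [op_single]
  unfold fQ N
  cases nxt e x j
  · simp only [Bool.false_eq_true, if_false]
    rw [one_add_one_eq_two]
    exact ENNReal.div_self (by norm_num) (by norm_num)
  · simp

/-- The block `a, a+e, …, a+(L-1)e`. -/
def blk (e a : Site d) (L : ℕ) : Finset (Site d) :=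
  (Finset.range L).image (fun i : ℕ => a + (i : ℤ) • e)

/-- No particle arrives in the block `a, a+e, …, a+(L-1)e`. -/
noncomputable def V (e a : Site d) (L : ℕ) (x : Config d (Bool × Bool)) : ℝ≥0∞ :=
  ∏ i ∈ Finset.range L, N e (a + (i : ℤ) • e) x

/-- No particle in the block `a, a+e, …, a+(L-1)e`. -/
noncomputable def QQ (e a : Site d) (L : ℕ) (x : Config d (Bool × Bool)) : ℝ≥0∞ :=
  ∏ i ∈ Finset.range L, fQ (x (a + (i : ℤ) • e))

theorem smul_inj {e : Site d} (he : e ≠ 0) {m n : ℤ} (h : m • e = n • e) : m = n := by
  obtain ⟨k, hk⟩ := Function.ne_iff.1 he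
  have h1 := congrFun h k
  simp only [Pi.smul_apply, smul_eq_mul] at h1
  exact mul_right_cancel₀ hk h1

theorem dependsOn_single (φ : Bool × Bool → ℝ≥0∞) (j : Site d) :
    DependsOn (fun x : Config d (Bool × Bool) => φ (x j)) (({j} : Finset (Site d)) : Set (Site d)) := by
  intro x y h
  have : x j = y j := h j (by simp)
  simp [this]

theorem dependsOn_QQ (e a : Site d) (L : ℕ) :
    DependsOn (QQ e a L) ((blk e a L : Finset (Site d)) : Set (Site d)) := by
  intro x y h
  unfold QQ
  apply Finset.prod_congr rfl
  intro i hi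
  rw [h (a + (i : ℤ) • e)]
  simp only [blk, Finset.coe_image, Set.mem_image, Finset.mem_coe]
  exact ⟨i, hi, rfl⟩

theorem op_QQ {e : Site d} (he : e ≠ 0) (a : Site d) (L : ℕ) :
    (coal e).op (QQ e a L) = V e a L := by
  induction L with
  | zero =>
    funext x
    simp [PCA.op, QQ, V]
  | succ L ih =>
    have h1 : QQ e a (L + 1) = fun x => QQ e a L x * fQ (x (a + (L : ℤ) • e)) := by
      funext x
      unfold QQ
      rw [Finset.prod_range_succ]
    rw [h1, PCA.op_mul _ (dependsOn_QQ e a L) (dependsOn_single fQ (a + (L : ℤ) • e)), ih, op_fQ]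
    · funext x
      unfold V
      rw [Finset.prod_range_succ]
    · rw [Finset.disjoint_singleton_right]
      simp only [blk, Finset.mem_image, Finset.mem_range, not_exists, not_and]
      intro i hi h
      have := smul_inj he (add_left_cancel h)
      omega

theorem V_succ (e a : Site d) (L : ℕ) (x : Config d (Bool × Bool)) :
    V e a (L + 1) x = fA (x (a - e)) * (QQ e a L x * fB (x (a + (L : ℤ) • e))) := by
  induction L with
  | zero =>
    simp [V, QQ, N_eq, mul_comm]
  | succ L ih =>
    unfold V at ih ⊢
    rw [Finset.prod_range_succ, ih, N_eq]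
    have h1 : a + ((L + 1 : ℕ) : ℤ) • e - e = a + (L : ℤ) • e := by
      push_cast
      rw [add_smul, one_smul]
      abel
    rw [h1]
    have h2 : QQ e a (L + 1) x = QQ e a L x * fQ (x (a + (L : ℤ) • e)) := by
      unfold QQ
      rw [Finset.prod_range_succ]
    rw [h2, ← fB_mul_fA]
    ring

theorem N_mul_V (e a : Site d) (L : ℕ) (x : Config d (Bool × Bool)) :
    N e (a - e) x * V e a L x = V e (a - e) (L + 1) x := by
  unfold V
  rw [Finset.prod_range_succ']
  rw [mul_comm]
  congr 1
  · apply Finset.prod_congr rfl
    intro i _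
    congr 1
    push_cast
    rw [add_smul, one_smul]
    abel
  · simp

theorem V_mul_N (e a : Site d) (L : ℕ) (x : Config d (Bool × Bool)) :
    V e a L x * N e (a + (L : ℤ) • e) x = V e a (L + 1) x := by
  unfold V
  rw [Finset.prod_range_succ]

/-- One step of the dual random walk. -/
theorem op_V_succ {e : Site d} (he : e ≠ 0) (a : Site d) (L : ℕ) (x : Config d (Bool × Bool)) :
    (coal e).op (V e a (L + 1)) x =
      (V e a L x + V e (a - e) (L + 1) x + V e a (L + 1) x + V e (a - e) (L + 2) x) / 4 := by
  have h0 : V e a (L + 1) = fun x => fA (x (a - e)) * (QQ e a L x * fB (x (a + (L : ℤ) • e))) := by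
    funext x
    exact V_succ e a L x
  have hb : ∀ i : ℕ, a - e ≠ a + (i : ℤ) • e := by
    intro i h
    have h2 : (-1 : ℤ) • e = (i : ℤ) • e := by
      apply add_left_cancel (a := a)
      rw [← h]
      simp [sub_eq_add_neg]
    have := smul_inj he h2
    omega
  have hQB : DependsOn (fun x => QQ e a L x * fB (x (a + (L : ℤ) • e)))
      ((blk e a (L + 1) : Finset (Site d)) : Set (Site d)) := by
    intro x y h
    have h1 : QQ e a L x = QQ e a L y := by
      apply dependsOn_QQ e a L
      intro i hi
      apply h
      simp only [blk, Finset.coe_image, Set.mem_image, Finset.mem_coe] at hi ⊢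
      obtain ⟨k, hk, rfl⟩ := hi
      exact ⟨k, Finset.range_mono (Nat.le_succ L) hk, rfl⟩
    have h2 : x (a + (L : ℤ) • e) = y (a + (L : ℤ) • e) := by
      apply h
      simp only [blk, Finset.coe_image, Set.mem_image, Finset.mem_coe]
      exact ⟨L, Finset.self_mem_range_succ L, rfl⟩
    simp only [h1, h2]
  have hd1 : Disjoint (blk e a L) {a + (L : ℤ) • e} := by
    rw [Finset.disjoint_singleton_right]
    simp only [blk, Finset.mem_image, Finset.mem_range, not_exists, not_and]
    intro i hi h
    have := smul_inj he (add_left_cancel h)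
    omega
  have hd2 : Disjoint {a - e} (blk e a (L + 1)) := by
    rw [Finset.disjoint_singleton_left]
    simp only [blk, Finset.mem_image, Finset.mem_range, not_exists, not_and]
    intro i hi h
    exact hb i h.symm
  have key : (coal e).op (V e a (L + 1)) x =
      (1 + N e (a - e) x) / 2 * (V e a L x * ((1 + N e (a + (L : ℤ) • e) x) / 2)) := by
    rw [h0, PCA.op_mul _ (dependsOn_single fA (a - e)) hQB hd2,
      PCA.op_mul _ (dependsOn_QQ e a L) (dependsOn_single fB (a + (L : ℤ) • e)) hd1,
      op_QQ he, op_fA, op_fB]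
  have e1 : V e (a - e) (L + 2) x = N e (a - e) x * (V e a L x * N e (a + (L : ℤ) • e) x) := by
    rw [V_mul_N, N_mul_V]
  rw [key, e1, ← N_mul_V e a L x, ← V_mul_N e a L x]
  have e4 : (4 : ℝ≥0∞)⁻¹ = 2⁻¹ * 2⁻¹ := by
    rw [← ENNReal.mul_inv (by simp) (by simp)]
    norm_num
  rw [ENNReal.div_eq_inv_mul, ENNReal.div_eq_inv_mul, ENNReal.div_eq_inv_mul, e4]
  ring

theorem V_le_one (e a : Site d) (L : ℕ) (x : Config d (Bool × Bool)) : V e a L x ≤ 1 := by
  unfold V
  exact Finset.prod_le_one' (fun i _ => N_le_one e _ x)

theorem measurable_N (e j : Site d) : Measurable (N e j) := by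
  apply PCA.measurable_of_dependsOn (F := {j, j - e})
  intro x y h
  have h1 : x j = y j := h j (by simp)
  have h2 : x (j - e) = y (j - e) := h (j - e) (by simp)
  unfold N nxt
  rw [h1, h2]

theorem measurable_V (e a : Site d) (L : ℕ) : Measurable (V e a L) := by
  unfold V
  exact Finset.measurable_prod _ (fun i _ => measurable_N e _)

/-- The probability that no particle arrives in the block when the configuration has law `ν`. -/
noncomputable def r (e : Site d) (ν : Measure (Config d (Bool × Bool))) (a : Site d) (L : ℕ) : ℝ :=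
  (∫⁻ x, V e a L x ∂ν).toReal

theorem lint_V_le (e : Site d) (ν : Measure (Config d (Bool × Bool))) [IsProbabilityMeasure ν]
    (a : Site d) (L : ℕ) : ∫⁻ x, V e a L x ∂ν ≤ 1 := by
  calc ∫⁻ x, V e a L x ∂ν ≤ ∫⁻ _, 1 ∂ν := lintegral_mono (V_le_one e a L)
    _ = 1 := by simp

theorem r_step {e : Site d} (he : e ≠ 0) (ν : Measure (Config d (Bool × Bool)))
    [IsProbabilityMeasure ν] (a : Site d) (L : ℕ) :
    r e ((coal e).evolve ν) a (L + 1) =
      (r e ν a L + r e ν (a - e) (L + 1) + r e ν a (L + 1) + r e ν (a - e) (L + 2)) / 4 := by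
  have hfin : ∀ b K, ∫⁻ x, V e b K x ∂ν ≠ ⊤ := fun b K =>
    ((lint_V_le e ν b K).trans_lt ENNReal.one_lt_top).ne
  unfold r
  rw [PCA.lintegral_evolve _ _ (measurable_V e a (L + 1))]
  simp only [op_V_succ he]
  simp only [ENNReal.div_eq_inv_mul]
  rw [lintegral_const_mul _ (by
    exact ((((measurable_V e a L).add (measurable_V e (a - e) (L + 1))).add
      (measurable_V e a (L + 1))).add (measurable_V e (a - e) (L + 2))))]
  rw [lintegral_add_right _ (measurable_V e (a - e) (L + 2)),
    lintegral_add_right _ (measurable_V e a (L + 1)),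
    lintegral_add_right _ (measurable_V e (a - e) (L + 1))]
  rw [ENNReal.toReal_mul, ENNReal.toReal_add (by simp [hfin]) (hfin _ _),
    ENNReal.toReal_add (by simp [hfin]) (hfin _ _), ENNReal.toReal_add (hfin _ _) (hfin _ _)]
  simp only [ENNReal.toReal_inv, ENNReal.toReal_ofNat]
  ring

theorem r_zero (e : Site d) (ν : Measure (Config d (Bool × Bool)))
    [IsProbabilityMeasure ν] (a : Site d) : r e ν a 0 = 1 := by
  simp [r, V]

theorem r_nonneg (e : Site d) (ν : Measure (Config d (Bool × Bool))) (a : Site d) (L : ℕ) :
    0 ≤ r e ν a L := ENNReal.toReal_nonneg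

/-- Survival probability at time `t` of the lazy simple random walk started from `L`, killed at
`0`. -/
noncomputable def M : ℕ → ℕ → ℝ
  | _, 0 => 0
  | 0, _ + 1 => 1
  | t + 1, L + 1 => (M t L + 2 * M t (L + 1) + M t (L + 2)) / 4

theorem M_zero (t : ℕ) : M t 0 = 0 := by
  cases t <;> simp [M]

theorem M_zero_succ (L : ℕ) : M 0 (L + 1) = 1 := by simp [M]

theorem M_succ_succ (t L : ℕ) :
    M (t + 1) (L + 1) = (M t L + 2 * M t (L + 1) + M t (L + 2)) / 4 := by simp [M]

theorem M_nonneg (t L : ℕ) : 0 ≤ M t L := by
  induction t generalizing L with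
  | zero =>
    cases L with
    | zero => rw [M_zero]
    | succ L => rw [M_zero_succ]; norm_num
  | succ t ih =>
    cases L with
    | zero => rw [M_zero]
    | succ L =>
      rw [M_succ_succ]
      have h1 := ih L
      have h2 := ih (L + 1)
      have h3 := ih (L + 2)
      positivity

theorem M_le_one (t L : ℕ) : M t L ≤ 1 := by
  induction t generalizing L with
  | zero =>
    cases L with
    | zero => rw [M_zero]; norm_num
    | succ L => rw [M_zero_succ]
  | succ t ih =>
    cases L with
    | zero => rw [M_zero]; norm_num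
    | succ L =>
      rw [M_succ_succ]
      have h1 := ih L
      have h2 := ih (L + 1)
      have h3 := ih (L + 2)
      linarith

theorem M_anti_succ (t L : ℕ) : M (t + 1) L ≤ M t L := by
  induction t generalizing L with
  | zero =>
    cases L with
    | zero => rw [M_zero, M_zero]
    | succ L => rw [M_zero_succ]; exact M_le_one _ _
  | succ t ih =>
    cases L with
    | zero => rw [M_zero, M_zero]
    | succ L =>
      have h0 := M_succ_succ t L
      rw [M_succ_succ (t + 1) L]
      have h1 := ih L
      have h2 := ih (L + 1)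
      have h3 := ih (L + 2)
      linarith

theorem M_anti (L : ℕ) : Antitone (fun t => M t L) := antitone_nat_of_succ_le (fun t => M_anti_succ t L)

theorem M_tendsto (L : ℕ) : Tendsto (fun t => M t L) atTop (𝓝 0) := by
  have hbdd : ∀ L, BddBelow (Set.range fun t => M t L) := fun L =>
    ⟨0, by rintro _ ⟨t, rfl⟩; exact M_nonneg t L⟩
  have hlim : ∀ L, Tendsto (fun t => M t L) atTop (𝓝 (⨅ t, M t L)) := fun L =>
    tendsto_atTop_ciInf (M_anti L) (hbdd L)
  set m : ℕ → ℝ := fun L => ⨅ t, M t L with hm
  have m0 : m 0 = 0 := by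
    simp only [hm, M_zero, ciInf_const]
  have hm0 : ∀ L, 0 ≤ m L := fun L => ge_of_tendsto' (hlim L) (fun t => M_nonneg t L)
  have hm1 : ∀ L, m L ≤ 1 := fun L => le_of_tendsto' (hlim L) (fun t => M_le_one t L)
  have hrec : ∀ L, m (L + 1) = (m L + 2 * m (L + 1) + m (L + 2)) / 4 := by
    intro L
    have h1 : Tendsto (fun t => M (t + 1) (L + 1)) atTop (𝓝 (m (L + 1))) :=
      (tendsto_add_atTop_iff_nat 1).2 (hlim (L + 1))
    have h2 : Tendsto (fun t => (M t L + 2 * M t (L + 1) + M t (L + 2)) / 4) atTop
        (𝓝 ((m L + 2 * m (L + 1) + m (L + 2)) / 4)) :=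
      ((((hlim L).add ((hlim (L + 1)).const_mul 2)).add (hlim (L + 2))).div_const 4)
    simp only [M_succ_succ] at h1
    exact tendsto_nhds_unique h1 h2
  have hlin : ∀ L : ℕ, m L = L * m 1 ∧ m (L + 1) = (L + 1 : ℕ) * m 1 := by
    intro L
    induction L with
    | zero => simp [m0]
    | succ L ih =>
      refine ⟨ih.2, ?_⟩
      have h1 := hrec L
      have h2 : m (L + 2) = 2 * m (L + 1) - m L := by linarith
      rw [h2, ih.1, ih.2]
      push_cast
      ring
  have hm10 : m 1 = 0 := by
    by_contra hne
    have hpos : 0 < m 1 := lt_of_le_of_ne (hm0 1) (Ne.symm hne)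
    obtain ⟨n, hn⟩ := exists_nat_gt (1 / m 1)
    have h1 := hm1 n
    rw [(hlin n).1] at h1
    rw [div_lt_iff₀ hpos] at hn
    linarith
  have hmL : m L = 0 := by rw [(hlin L).1, hm10, mul_zero]
  have := hlim L
  change Tendsto (fun t => M t L) atTop (𝓝 (m L)) at this
  rwa [hmL] at this

theorem M_lower (n : ℕ) (hn : 0 < n) (t L : ℕ) (h : L + t ≤ n) : (L : ℝ) / n ≤ M t L := by
  have hn' : (0 : ℝ) < n := by exact_mod_cast hn
  induction t generalizing L with
  | zero =>
    cases L with
    | zero => rw [M_zero]; simp
    | succ L =>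
      rw [M_zero_succ, div_le_one hn']
      exact_mod_cast h
  | succ t ih =>
    cases L with
    | zero => rw [M_zero]; simp
    | succ L =>
      rw [M_succ_succ]
      have h1 := ih L (by omega)
      have h2 := ih (L + 1) (by omega)
      have h3 := ih (L + 2) (by omega)
      rw [div_le_iff₀ hn'] at h1 h2 h3 ⊢
      push_cast at h1 h2 h3 ⊢
      linarith

theorem M_one_lower (t : ℕ) : 1 / ((t : ℝ) + 1) ≤ M t 1 := by
  have := M_lower (t + 1) (Nat.succ_pos t) t 1 (by omega)
  push_cast at this
  exact this

/-- From every initial law, the block is empty at time `t + 1` with probability at least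
`1 - M t L`. -/
theorem r_lower {e : Site d} (he : e ≠ 0) (μ : Measure (Config d (Bool × Bool)))
    [hμ : IsProbabilityMeasure μ] (t : ℕ) (a : Site d) (L : ℕ) :
    1 - M t L ≤ r e ((coal e).evolve^[t] μ) a L := by
  induction t generalizing a L with
  | zero =>
    cases L with
    | zero => simp [M_zero, r_zero]
    | succ L =>
      rw [M_zero_succ]
      simpa using r_nonneg e μ a (L + 1)
  | succ t ih =>
    have hp := (coal e).isProbabilityMeasure_iterate μ t
    have hp' := (coal e).isProbabilityMeasure_iterate μ (t + 1)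
    cases L with
    | zero => rw [M_zero, r_zero, sub_zero]
    | succ L =>
      rw [Function.iterate_succ_apply', r_step he, M_succ_succ]
      have h1 := ih a L
      have h2 := ih (a - e) (L + 1)
      have h3 := ih a (L + 1)
      have h4 := ih (a - e) (L + 2)
      linarith

/-- The full configuration, all of whose coins show `false`. -/
def full (d : ℕ) : Config d (Bool × Bool) := fun _ => (true, false)

theorem V_full (e a : Site d) (L : ℕ) : V e a (L + 1) (full d) = 0 := by
  unfold V
  apply Finset.prod_eq_zero (i := 0) (by simp)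
  simp [N, nxt, full]

/-- From the full configuration, the block is empty at time `t + 1` with probability exactly
`1 - M t L`. -/
theorem r_full {e : Site d} (he : e ≠ 0) (t : ℕ) (a : Site d) (L : ℕ) :
    r e ((coal e).evolve^[t] (Measure.dirac (full d))) a L = 1 - M t L := by
  induction t generalizing a L with
  | zero =>
    cases L with
    | zero => simp [M_zero, r_zero]
    | succ L =>
      rw [M_zero_succ]
      simp only [Function.iterate_zero, id_eq, r, sub_self]
      rw [lintegral_dirac' _ (measurable_V e a (L + 1)), V_full]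
      simp
  | succ t ih =>
    have hp := (coal e).isProbabilityMeasure_iterate (Measure.dirac (full d)) t
    have hp' := (coal e).isProbabilityMeasure_iterate (Measure.dirac (full d)) (t + 1)
    cases L with
    | zero => rw [M_zero, r_zero, sub_zero]
    | succ L =>
      rw [Function.iterate_succ_apply', r_step he, M_succ_succ, ih, ih, ih, ih]
      ring

end Pool.Agent.TH967.PCA
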