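import Mathlib
import Pool.Agent.TH967.PCA.Coal

set_option autoImplicit false

open MeasureTheory ProbabilityTheory Filter Topology
open scoped ENNReal Pointwise

/-!
# Coalescing random walks as a probabilistic cellular automaton: cylinder probabilities
-/

namespace Pool.Agent.TH967.PCA

open Pool.Agent.H443R3

variable {d : ℕ}

/-- The empty configuration, all of whose coins show `false`. -/
def empt (d : ℕ) : Config d (Bool × Bool) := fun _ => (false, false)

theorem nxt_empt (e i : Site d) : nxt e (empt d) i = false := by simp [nxt, empt]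

/-- The stationary law: no particles, independent fair coins. -/
noncomputable def stat (e : Site d) : Measure (Config d (Bool × Bool)) := (coal e).step (empt d)

instance (e : Site d) : IsProbabilityMeasure (stat e) := by unfold stat; infer_instance

theorem step_cyl_congr (e : Site d) (x y : Config d (Bool × Bool)) (A : Finset (Site d))
    (u : A → Bool × Bool) (h : ∀ i ∈ A, nxt e x i = nxt e y i) :
    (coal e).step x (cyl A u) = (coal e).step y (cyl A u) := by
  have hc : cyl A u = cylinder A ({u} : Set (A → Bool × Bool)) := by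
    ext z
    simp only [cyl, cylinder, Set.mem_preimage, Set.mem_singleton_iff]
    constructor
    · intro h'
      funext a
      exact h' a
    · intro h' a
      rw [← h']
      rfl
  have key : ∀ z : Config d (Bool × Bool), (coal e).step z (cylinder A {u}) =
      Measure.pi (fun i : A => ((coal e).rule ((coal e).pattern z i)).toMeasure) {u} := fun z =>
    Measure.infinitePi_cylinder
      (fun i : Site d => ((coal e).rule ((coal e).pattern z i)).toMeasure)
      (MeasurableSet.singleton u)
  rw [hc, key, key]
  have : (fun i : A => ((coal e).rule ((coal e).pattern x i)).toMeasure) =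
      (fun i : A => ((coal e).rule ((coal e).pattern y i)).toMeasure) := by
    funext i
    rw [coal_rule, coal_rule, h i i.2]
  rw [this]

theorem step_cyl_le (e : Site d) (x y : Config d (Bool × Bool)) (A : Finset (Site d))
    (u : A → Bool × Bool) (h : (∀ i ∈ A, nxt e x i = false) → ∀ i ∈ A, nxt e x i = nxt e y i)
    (P : ℝ≥0∞) (hP : P = ∑ i ∈ A, (1 - N e i x)) :
    (coal e).step x (cyl A u) ≤ (coal e).step y (cyl A u) + P ∧
    (coal e).step y (cyl A u) ≤ (coal e).step x (cyl A u) + P := by
  by_cases h0 : ∀ i ∈ A, nxt e x i = false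
  · rw [step_cyl_congr e x y A u (h h0)]
    exact ⟨le_self_add, le_self_add⟩
  · push Not at h0
    obtain ⟨i, hi, hi2⟩ := h0
    have h1 : 1 ≤ P := by
      rw [hP]
      have h2 : (1 : ℝ≥0∞) = 1 - N e i x := by
        unfold N
        simp [hi2]
      calc (1 : ℝ≥0∞) = 1 - N e i x := h2
        _ ≤ ∑ i ∈ A, (1 - N e i x) :=
          Finset.single_le_sum (f := fun i => 1 - N e i x) (fun _ _ => zero_le) hi
    have h3 : ∀ z : Config d (Bool × Bool), (coal e).step z (cyl A u) ≤ 1 := fun z => prob_le_one
    exact ⟨((h3 x).trans h1).trans le_add_self, ((h3 y).trans h1).trans le_add_self⟩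

theorem V_one (e a : Site d) : V e a 1 = N e a := by
  funext x
  simp [V]

theorem measurable_one_sub_N (e i : Site d) :
    Measurable (fun x : Config d (Bool × Bool) => 1 - N e i x) :=
  measurable_const.sub (measurable_N e i)

theorem lint_one_sub_N (e : Site d) (ν : Measure (Config d (Bool × Bool)))
    [IsProbabilityMeasure ν] (i : Site d) :
    (∫⁻ x, (1 - N e i x) ∂ν) = ENNReal.ofReal (1 - r e ν i 1) := by
  have hfin : ∫⁻ x, N e i x ∂ν ≠ ⊤ := by
    have := lint_V_le e ν i 1
    rw [V_one] at this
    exact (this.trans_lt ENNReal.one_lt_top).ne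
  rw [lintegral_sub (measurable_N e i) hfin (Eventually.of_forall fun x => N_le_one e i x)]
  rw [ENNReal.ofReal_sub _ (r_nonneg e ν i 1)]
  unfold r
  rw [V_one, ENNReal.ofReal_toReal hfin]
  simp

/-- The probability of a cylinder after one more step. -/
theorem evolve_cyl (e : Site d) (ν : Measure (Config d (Bool × Bool)))
    (A : Finset (Site d)) (u : A → Bool × Bool) :
    (coal e).evolve ν (cyl A u) = ∫⁻ x, (coal e).step x (cyl A u) ∂ν := by
  unfold PCA.evolve
  rw [Measure.bind_apply (measurableSet_cyl A u) (coal e).measurable_step.aemeasurable]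

theorem r_le_one (e : Site d) (ν : Measure (Config d (Bool × Bool)))
    [IsProbabilityMeasure ν] (a : Site d) (L : ℕ) : r e ν a L ≤ 1 := by
  unfold r
  have := ENNReal.toReal_mono ENNReal.one_ne_top (lint_V_le e ν a L)
  simpa using this

/-- The distance of a cylinder probability to its stationary value. -/
theorem cyl_dist (e : Site d) (ν : Measure (Config d (Bool × Bool)))
    [IsProbabilityMeasure ν] (A : Finset (Site d)) (u : A → Bool × Bool) :
    |((coal e).evolve ν (cyl A u)).toReal - (stat e (cyl A u)).toReal| ≤
      ∑ i ∈ A, (1 - r e ν i 1) := by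
  have hev := (coal e).isProbabilityMeasure_evolve ν
  set R : ℝ≥0∞ := ∫⁻ x, ∑ i ∈ A, (1 - N e i x) ∂ν with hR
  have hR2 : R = ENNReal.ofReal (∑ i ∈ A, (1 - r e ν i 1)) := by
    rw [hR, lintegral_finsetSum _ (fun i _ => measurable_one_sub_N e i)]
    rw [ENNReal.ofReal_sum_of_nonneg (fun i _ => by
      have := r_le_one e ν i 1
      linarith)]
    apply Finset.sum_congr rfl
    intro i _
    exact lint_one_sub_N e ν i
  have hstep : ∀ x, (coal e).step x (cyl A u) ≤ stat e (cyl A u) + ∑ i ∈ A, (1 - N e i x) ∧
      stat e (cyl A u) ≤ (coal e).step x (cyl A u) + ∑ i ∈ A, (1 - N e i x) := by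
    intro x
    exact step_cyl_le e x (empt d) A u (fun h i hi => by rw [h i hi, nxt_empt]) _ rfl
  have h1 : (coal e).evolve ν (cyl A u) ≤ stat e (cyl A u) + R := by
    rw [evolve_cyl]
    calc ∫⁻ x, (coal e).step x (cyl A u) ∂ν
        ≤ ∫⁻ x, (stat e (cyl A u) + ∑ i ∈ A, (1 - N e i x)) ∂ν :=
          lintegral_mono (fun x => (hstep x).1)
      _ = stat e (cyl A u) + R := by
          rw [lintegral_add_left measurable_const, lintegral_const, measure_univ, mul_one]
  have hmeas : Measurable fun x => (coal e).step x (cyl A u) :=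
    (Measure.measurable_coe (measurableSet_cyl A u)).comp (coal e).measurable_step
  have h2 : stat e (cyl A u) ≤ (coal e).evolve ν (cyl A u) + R := by
    rw [evolve_cyl]
    calc stat e (cyl A u) = ∫⁻ _, stat e (cyl A u) ∂ν := by simp
      _ ≤ ∫⁻ x, ((coal e).step x (cyl A u) + ∑ i ∈ A, (1 - N e i x)) ∂ν :=
          lintegral_mono (fun x => (hstep x).2)
      _ = ∫⁻ x, (coal e).step x (cyl A u) ∂ν + R := by
          rw [lintegral_add_left hmeas]
  have hRtop : R ≠ ⊤ := by rw [hR2]; exact ENNReal.ofReal_ne_top
  have hnn : 0 ≤ ∑ i ∈ A, (1 - r e ν i 1) := Finset.sum_nonneg (fun i _ => by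
    have := r_le_one e ν i 1
    linarith)
  have hRr : R.toReal = ∑ i ∈ A, (1 - r e ν i 1) := by
    rw [hR2, ENNReal.toReal_ofReal hnn]
  have h1' := ENNReal.toReal_mono (ENNReal.add_ne_top.2 ⟨measure_ne_top _ _, hRtop⟩) h1
  have h2' := ENNReal.toReal_mono (ENNReal.add_ne_top.2 ⟨measure_ne_top _ _, hRtop⟩) h2
  rw [ENNReal.toReal_add (measure_ne_top _ _) hRtop, hRr] at h1' h2'
  rw [abs_le]
  constructor <;> linarith

/-- Uniform bound for all cylinders and all initial laws. -/
theorem cyl_dist_iterate {e : Site d} (he : e ≠ 0) (μ : Measure (Config d (Bool × Bool)))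
    [hμ : IsProbabilityMeasure μ] (A : Finset (Site d)) (u : A → Bool × Bool) (t : ℕ) :
    |((coal e).evolve^[t + 1] μ (cyl A u)).toReal - (stat e (cyl A u)).toReal| ≤
      A.card * M t 1 := by
  have hp := (coal e).isProbabilityMeasure_iterate μ t
  rw [Function.iterate_succ_apply']
  refine (cyl_dist e ((coal e).evolve^[t] μ) A u).trans ?_
  calc ∑ i ∈ A, (1 - r e ((coal e).evolve^[t] μ) i 1) ≤ ∑ _i ∈ A, M t 1 := by
        apply Finset.sum_le_sum
        intro i _
        have := r_lower he μ t i 1
        linarith
    _ = A.card * M t 1 := by rw [Finset.sum_const, nsmul_eq_mul]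

/-- The test cylinder: a particle with coin `true` at the origin. -/
def tst (d : ℕ) : Set (Config d (Bool × Bool)) :=
  cyl ({0} : Finset (Site d)) (fun _ => (true, true))

theorem step_tst (e : Site d) (x : Config d (Bool × Bool)) :
    (coal e).step x (tst d) = (1 - N e 0 x) / 2 := by
  have h1 := lintegral_ind ((coal e).step x) ({0} : Finset (Site d)) (fun _ => ((true, true) : Bool × Bool))
  unfold tst
  rw [← h1]
  have h2 : (fun y : Config d (Bool × Bool) =>
      ind ({0} : Finset (Site d)) (fun _ => ((true, true) : Bool × Bool)) y) =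
      fun y => (fun s : Bool × Bool => if s = (true, true) then (1 : ℝ≥0∞) else 0) (y 0) := by
    funext y
    unfold ind
    by_cases hy : y 0 = (true, true)
    · have : y ∈ cyl ({0} : Finset (Site d)) (fun _ => ((true, true) : Bool × Bool)) := by
        rintro ⟨a, ha⟩
        rw [Finset.mem_singleton] at ha
        subst ha
        exact hy
      simp [this, hy]
    · have : y ∉ cyl ({0} : Finset (Site d)) (fun _ => ((true, true) : Bool × Bool)) := by
        intro h
        exact hy (h ⟨0, by simp⟩)
      simp [this, hy]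
  have h3 := op_single e (fun s : Bool × Bool => if s = (true, true) then (1 : ℝ≥0∞) else 0) 0 x
  unfold PCA.op at h3
  rw [h2, h3]
  unfold N
  cases nxt e x 0 <;> simp

theorem stat_tst (e : Site d) : stat e (tst d) = 0 := by
  unfold stat
  rw [step_tst]
  unfold N
  rw [nxt_empt]
  simp

/-- The test cylinder has probability exactly `M t 1 / 2` at time `t + 1` when the walk is started
from the full configuration. -/
theorem tst_iterate {e : Site d} (he : e ≠ 0) (t : ℕ) :
    ((coal e).evolve^[t + 1] (Measure.dirac (full d)) (tst d)).toReal = M t 1 / 2 := by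
  have hp := (coal e).isProbabilityMeasure_iterate (Measure.dirac (full d)) t
  rw [Function.iterate_succ_apply']
  unfold tst
  rw [evolve_cyl]
  have h1 : ∀ x, (coal e).step x (cyl ({0} : Finset (Site d)) (fun _ => (true, true))) =
      2⁻¹ * (1 - N e 0 x) := by
    intro x
    have := step_tst e x
    unfold tst at this
    rw [this, ENNReal.div_eq_inv_mul]
  simp only [h1]
  rw [lintegral_const_mul _ (measurable_one_sub_N e 0), lint_one_sub_N,
    r_full he t 0 1, sub_sub_cancel, ENNReal.toReal_mul, ENNReal.toReal_ofReal (M_nonneg t 1)]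
  simp only [ENNReal.toReal_inv, ENNReal.toReal_ofNat]
  ring

end Pool.Agent.TH967.PCA
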